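import Mathlib

set_option autoImplicit false

/-!
Concentration and exponential tilting for functions of finitely many Bernoulli variables which
change by at most one if one variable is changed.
-/

namespace Pool.Agent.H246.FR

noncomputable section

/-- The weight of one value. -/
def w (p : ℝ) (b : Bool) : ℝ := if b then p else 1 - p

/-- The expectation of `g` under the product of `n` Bernoulli measures. -/
def Ex (p : ℝ) (n : ℕ) (g : (Fin n → Bool) → ℝ) : ℝ :=
  ∑ η : Fin n → Bool, (∏ i, w p (η i)) * g η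

lemma w_nonneg {p : ℝ} (h0 : 0 ≤ p) (h1 : p ≤ 1) (b : Bool) : 0 ≤ w p b := by
  unfold w
  split_ifs <;> linarith

lemma Ex_zero (p : ℝ) (g : (Fin 0 → Bool) → ℝ) : Ex p 0 g = g default := by
  unfold Ex
  rw [Fintype.sum_unique, Fin.prod_univ_zero, one_mul]
  exact congrArg g (Subsingleton.elim _ _)

lemma Ex_succ (p : ℝ) (n : ℕ) (g : (Fin (n + 1) → Bool) → ℝ) :
    Ex p (n + 1) g = (1 - p) * Ex p n (fun η => g (Fin.cons false η)) +
      p * Ex p n (fun η => g (Fin.cons true η)) := by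
  unfold Ex
  rw [← (Fin.consEquiv (fun _ : Fin (n + 1) => Bool)).sum_comp, Fintype.sum_prod_type,
    Fintype.sum_bool, Finset.mul_sum, Finset.mul_sum, add_comm]
  congr 1
  · refine Finset.sum_congr rfl fun η _ => ?_
    have e : (Fin.consEquiv (fun _ : Fin (n + 1) => Bool)) (false, η) = Fin.cons false η := rfl
    rw [e, Fin.prod_univ_succ]
    simp only [Fin.cons_zero, Fin.cons_succ]
    simp only [w, Bool.false_eq_true, if_false]
    ring
  · refine Finset.sum_congr rfl fun η _ => ?_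
    have e : (Fin.consEquiv (fun _ : Fin (n + 1) => Bool)) (true, η) = Fin.cons true η := rfl
    rw [e, Fin.prod_univ_succ]
    simp only [Fin.cons_zero, Fin.cons_succ]
    simp only [w, if_true]
    ring

lemma Ex_add (p : ℝ) (n : ℕ) (g h : (Fin n → Bool) → ℝ) :
    Ex p n (fun η => g η + h η) = Ex p n g + Ex p n h := by
  unfold Ex
  rw [← Finset.sum_add_distrib]
  exact Finset.sum_congr rfl fun η _ => by ring

lemma Ex_smul (p : ℝ) (n : ℕ) (a : ℝ) (g : (Fin n → Bool) → ℝ) :
    Ex p n (fun η => a * g η) = a * Ex p n g := by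
  unfold Ex
  rw [Finset.mul_sum]
  exact Finset.sum_congr rfl fun η _ => by ring

lemma Ex_const (p : ℝ) (n : ℕ) (a : ℝ) : Ex p n (fun _ => a) = a := by
  induction n with
  | zero => rw [Ex_zero]
  | succ n ih => rw [Ex_succ, ih]; ring

lemma Ex_sub (p : ℝ) (n : ℕ) (g h : (Fin n → Bool) → ℝ) :
    Ex p n (fun η => g η - h η) = Ex p n g - Ex p n h := by
  unfold Ex
  rw [← Finset.sum_sub_distrib]
  exact Finset.sum_congr rfl fun η _ => by ring

lemma Ex_mono {p : ℝ} (h0 : 0 ≤ p) (h1 : p ≤ 1) {n : ℕ} {g h : (Fin n → Bool) → ℝ}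
    (hgh : ∀ η, g η ≤ h η) : Ex p n g ≤ Ex p n h := by
  unfold Ex
  refine Finset.sum_le_sum fun η _ => ?_
  exact mul_le_mul_of_nonneg_left (hgh η) (Finset.prod_nonneg fun i _ => w_nonneg h0 h1 _)

/-- A function which changes by at most one if one variable is changed. -/
def Lip {n : ℕ} (g : (Fin n → Bool) → ℝ) : Prop :=
  ∀ (η η' : Fin n → Bool) (i : Fin n), (∀ j, j ≠ i → η j = η' j) → |g η - g η'| ≤ 1

lemma Lip.cons {n : ℕ} {g : (Fin (n + 1) → Bool) → ℝ} (h : Lip g) (b : Bool) :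
    Lip (fun η => g (Fin.cons b η)) := by
  intro η η' i hi
  refine h _ _ i.succ fun j hj => ?_
  induction j using Fin.cases with
  | zero => rfl
  | succ j =>
    rw [Fin.cons_succ, Fin.cons_succ]
    exact hi j fun e => hj (by rw [e])

lemma Lip.head {n : ℕ} {g : (Fin (n + 1) → Bool) → ℝ} (h : Lip g) (b b' : Bool)
    (η : Fin n → Bool) : |g (Fin.cons b η) - g (Fin.cons b' η)| ≤ 1 := by
  refine h _ _ 0 fun j hj => ?_
  induction j using Fin.cases with
  | zero => exact absurd rfl hj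
  | succ j => rw [Fin.cons_succ, Fin.cons_succ]

lemma Ex_abs_le {p : ℝ} (h0 : 0 ≤ p) (h1 : p ≤ 1) {n : ℕ} {g h : (Fin n → Bool) → ℝ} {a : ℝ}
    (hgh : ∀ η, |g η - h η| ≤ a) : |Ex p n g - Ex p n h| ≤ a := by
  rw [← Ex_sub, abs_le]
  constructor
  · rw [← Ex_const p n (-a)]
    exact Ex_mono h0 h1 fun η => (abs_le.1 (hgh η)).1
  · rw [← Ex_const p n a]
    exact Ex_mono h0 h1 fun η => (abs_le.1 (hgh η)).2

/-- The two point case of the inequality of Hoeffding. -/
lemma two_point {p a l : ℝ} (h0 : 0 ≤ p) (h1 : p ≤ 1) (ha : |a| ≤ 1) :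
    (1 - p) * Real.exp (l * (-(p * a))) + p * Real.exp (l * ((1 - p) * a)) ≤
      Real.exp (l ^ 2 / 2) := by
  have ha' := abs_le.1 ha
  have e1 : |-(p * a)| ≤ 1 := by
    rw [abs_neg, abs_mul, abs_of_nonneg h0]
    nlinarith [abs_nonneg a]
  have e2 : |(1 - p) * a| ≤ 1 := by
    rw [abs_mul, abs_of_nonneg (by linarith : (0 : ℝ) ≤ 1 - p)]
    nlinarith [abs_nonneg a]
  have f1 := Real.exp_mul_le_cosh_add_mul_sinh e1 l
  have f2 := Real.exp_mul_le_cosh_add_mul_sinh e2 l
  rw [mul_comm _ l] at f1 f2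
  have f3 := Real.cosh_le_exp_half_sq l
  calc (1 - p) * Real.exp (l * (-(p * a))) + p * Real.exp (l * ((1 - p) * a))
      ≤ (1 - p) * (Real.cosh l + -(p * a) * Real.sinh l) +
        p * (Real.cosh l + (1 - p) * a * Real.sinh l) :=
        add_le_add (mul_le_mul_of_nonneg_left f1 (by linarith))
          (mul_le_mul_of_nonneg_left f2 h0)
    _ = Real.cosh l := by ring
    _ ≤ _ := f3

/-- Exponential moments. -/
lemma mgf {p : ℝ} (h0 : 0 ≤ p) (h1 : p ≤ 1) (l : ℝ) : ∀ (n : ℕ) (g : (Fin n → Bool) → ℝ), Lip g →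
    Ex p n (fun η => Real.exp (l * (g η - Ex p n g))) ≤ Real.exp (l ^ 2 / 2 * n) := by
  intro n
  induction n with
  | zero =>
    intro g _
    rw [Ex_zero, Ex_zero]
    simp
  | succ n ih =>
    intro g hg
    have hA := ih _ (hg.cons false)
    have hB := ih _ (hg.cons true)
    have hm := Ex_succ p n g
    obtain ⟨A, hAd⟩ : ∃ A, A = Ex p n (fun η => g (Fin.cons false η)) := ⟨_, rfl⟩
    obtain ⟨B, hBd⟩ : ∃ B, B = Ex p n (fun η => g (Fin.cons true η)) := ⟨_, rfl⟩
    have hAB : |B - A| ≤ 1 := by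
      rw [hAd, hBd]
      exact Ex_abs_le h0 h1 fun η => hg.head true false η
    rw [← hAd, ← hBd] at hm
    rw [← hAd] at hA
    rw [← hBd] at hB
    rw [Ex_succ]
    have e1 : ∀ η : Fin n → Bool, Real.exp (l * (g (Fin.cons false η) - Ex p (n + 1) g)) =
        Real.exp (l * (-(p * (B - A)))) * Real.exp (l * (g (Fin.cons false η) - A)) := by
      intro η
      rw [← Real.exp_add, hm]
      congr 1
      ring
    have e2 : ∀ η : Fin n → Bool, Real.exp (l * (g (Fin.cons true η) - Ex p (n + 1) g)) =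
        Real.exp (l * ((1 - p) * (B - A))) * Real.exp (l * (g (Fin.cons true η) - B)) := by
      intro η
      rw [← Real.exp_add, hm]
      congr 1
      ring
    simp only [e1, e2]
    rw [Ex_smul, Ex_smul]
    have t := two_point (l := l) h0 h1 hAB
    have hE : Real.exp (l ^ 2 / 2 * ((n + 1 : ℕ) : ℝ)) =
        Real.exp (l ^ 2 / 2) * Real.exp (l ^ 2 / 2 * n) := by
      rw [← Real.exp_add]
      congr 1
      push_cast
      ring
    rw [hE]
    have hp1 : 0 ≤ 1 - p := by linarith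
    calc (1 - p) * (Real.exp (l * (-(p * (B - A)))) *
          Ex p n (fun η => Real.exp (l * (g (Fin.cons false η) - A)))) +
        p * (Real.exp (l * ((1 - p) * (B - A))) *
          Ex p n (fun η => Real.exp (l * (g (Fin.cons true η) - B))))
        ≤ (1 - p) * (Real.exp (l * (-(p * (B - A)))) * Real.exp (l ^ 2 / 2 * n)) +
          p * (Real.exp (l * ((1 - p) * (B - A))) * Real.exp (l ^ 2 / 2 * n)) := by
          gcongr
      _ = ((1 - p) * Real.exp (l * (-(p * (B - A)))) + p * Real.exp (l * ((1 - p) * (B - A)))) *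
          Real.exp (l ^ 2 / 2 * n) := by ring
      _ ≤ _ := mul_le_mul_of_nonneg_right t (Real.exp_pos _).le

/-- The probability of an event. -/
def Pr (p : ℝ) (n : ℕ) (A : (Fin n → Bool) → Prop) : ℝ := by
  classical
  exact Ex p n (fun η => if A η then 1 else 0)

lemma upper {p : ℝ} (h0 : 0 ≤ p) (h1 : p ≤ 1) {n : ℕ} {g : (Fin n → Bool) → ℝ} (hg : Lip g)
    {l s : ℝ} (hl : 0 ≤ l) :
    Pr p n (fun η => Ex p n g + s ≤ g η) ≤ Real.exp (l ^ 2 / 2 * n - l * s) := by
  classical
  unfold Pr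
  have h := mgf h0 h1 l n g hg
  calc Ex p n (fun η => if Ex p n g + s ≤ g η then (1 : ℝ) else 0)
      ≤ Ex p n (fun η => Real.exp (-(l * s)) * Real.exp (l * (g η - Ex p n g))) := by
        refine Ex_mono h0 h1 fun η => ?_
        rw [← Real.exp_add]
        split_ifs with hh
        · rw [← Real.exp_zero]
          refine Real.exp_le_exp.2 ?_
          nlinarith
        · exact (Real.exp_pos _).le
    _ = Real.exp (-(l * s)) * Ex p n (fun η => Real.exp (l * (g η - Ex p n g))) := Ex_smul _ _ _ _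
    _ ≤ Real.exp (-(l * s)) * Real.exp (l ^ 2 / 2 * n) :=
        mul_le_mul_of_nonneg_left h (Real.exp_pos _).le
    _ = _ := by
        rw [← Real.exp_add]
        congr 1
        ring

lemma lower {p : ℝ} (h0 : 0 ≤ p) (h1 : p ≤ 1) {n : ℕ} {g : (Fin n → Bool) → ℝ} (hg : Lip g)
    {l : ℝ} (hl : 0 ≤ l) :
    Pr p n (fun η => g η ≤ 0) ≤ Real.exp (l ^ 2 / 2 * n - l * Ex p n g) := by
  classical
  unfold Pr
  have h := mgf h0 h1 (-l) n g hg
  calc Ex p n (fun η => if g η ≤ 0 then (1 : ℝ) else 0)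
      ≤ Ex p n (fun η => Real.exp (-(l * Ex p n g)) * Real.exp (-l * (g η - Ex p n g))) := by
        refine Ex_mono h0 h1 fun η => ?_
        rw [← Real.exp_add]
        split_ifs with hh
        · rw [← Real.exp_zero]
          refine Real.exp_le_exp.2 ?_
          nlinarith
        · exact (Real.exp_pos _).le
    _ = Real.exp (-(l * Ex p n g)) * Ex p n (fun η => Real.exp (-l * (g η - Ex p n g))) :=
        Ex_smul _ _ _ _
    _ ≤ Real.exp (-(l * Ex p n g)) * Real.exp ((-l) ^ 2 / 2 * n) :=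
        mul_le_mul_of_nonneg_left h (Real.exp_pos _).le
    _ = _ := by
        rw [← Real.exp_add]
        congr 1
        ring

/-- A bound for the mean of a function which vanishes with probability at least `c`. -/
lemma mean_le {p c : ℝ} (h0 : 0 ≤ p) (h1 : p ≤ 1) {n : ℕ} {g : (Fin n → Bool) → ℝ} (hg : Lip g)
    (hg0 : ∀ η, 0 ≤ g η) (hc : 0 < c) (h : c ≤ Pr p n (fun η => g η ≤ 0)) :
    Ex p n g ≤ √(2 * n) * √(Real.log (1 / c)) := by
  have hm : 0 ≤ Ex p n g := by
    rw [← Ex_const p n 0]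
    exact Ex_mono h0 h1 hg0
  rcases Nat.eq_zero_or_pos n with hn | hn
  · subst hn
    unfold Pr at h
    rw [Ex_zero] at h ⊢
    split_ifs at h with hh
    · simpa using hh
    · linarith
  have hn' : (0 : ℝ) < n := by exact_mod_cast hn
  have h2 := h.trans (lower h0 h1 hg (div_nonneg hm hn'.le))
  have e : (Ex p n g / n) ^ 2 / 2 * n - Ex p n g / n * Ex p n g = -(Ex p n g ^ 2 / (2 * n)) := by
    field_simp
    ring
  rw [e] at h2
  have h3 := Real.log_le_log hc h2
  rw [Real.log_exp] at h3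
  rw [← Real.sqrt_mul (by positivity), one_div, Real.log_inv]
  apply Real.le_sqrt_of_sq_le
  have h4 : Ex p n g ^ 2 / (2 * n) ≤ -Real.log c := by linarith
  rw [div_le_iff₀ (by positivity)] at h4
  linarith

/-- Gaussian tails of a function which vanishes with probability at least `c`. -/
lemma tail {p c t : ℝ} (h0 : 0 ≤ p) (h1 : p ≤ 1) {n : ℕ} {g : (Fin n → Bool) → ℝ} (hg : Lip g)
    (hg0 : ∀ η, 0 ≤ g η) (hc : 0 < c) (h : c ≤ Pr p n (fun η => g η ≤ 0)) (ht : 0 ≤ t)
    (hn : 0 < n) :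
    Pr p n (fun η => √(2 * n) * (√(Real.log (1 / c)) + t) ≤ g η) ≤ Real.exp (-t ^ 2) := by
  classical
  have hn' : (0 : ℝ) < n := by exact_mod_cast hn
  have h2 := mean_le h0 h1 hg hg0 hc h
  have hs : (√(2 * (n : ℝ))) ^ 2 = 2 * n := Real.sq_sqrt (by positivity)
  have hsp : 0 < √(2 * (n : ℝ)) := Real.sqrt_pos.2 (by positivity)
  have h3 := upper h0 h1 hg (l := √(2 * (n : ℝ)) * t / n) (s := √(2 * (n : ℝ)) * t)
    (by positivity)
  have e : (√(2 * (n : ℝ)) * t / n) ^ 2 / 2 * n - √(2 * (n : ℝ)) * t / n * (√(2 * (n : ℝ)) * t) =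
      -t ^ 2 := by
    have : (√(2 * (n : ℝ)) * t / n) ^ 2 / 2 * n - √(2 * (n : ℝ)) * t / n * (√(2 * (n : ℝ)) * t) =
      -((√(2 * (n : ℝ))) ^ 2 * t ^ 2 / (2 * n)) := by
      field_simp
      ring
    rw [this, hs]
    field_simp
  rw [e] at h3
  refine le_trans ?_ h3
  unfold Pr
  refine Ex_mono h0 h1 fun η => ?_
  dsimp only
  split_ifs with a b b
  · exact le_rfl
  · exfalso
    apply b
    linarith [mul_add (√(2 * (n : ℝ))) (√(Real.log (1 / c))) t]
  · exact zero_le_one
  · exact le_rfl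

lemma one_sub_exp {s : ℝ} (hs : 0 ≤ s) : s - s ^ 2 / 2 ≤ 1 - Real.exp (-s) := by
  have h := Real.quadratic_le_exp_of_nonneg hs
  have h2 : Real.exp (-s) ≤ 1 / (1 + s + s ^ 2 / 2) := by
    rw [Real.exp_neg, ← one_div]
    exact one_div_le_one_div_of_le (by positivity) h
  have h3 : 1 / (1 + s + s ^ 2 / 2) ≤ 1 - s + s ^ 2 / 2 := by
    rw [div_le_iff₀ (by positivity)]
    nlinarith [sq_nonneg (s ^ 2)]
  linarith

/-- The one variable case of the exponential tilting. -/
lemma tilt_one {p q s : ℝ} (hp : 0 ≤ p) (hq : q ≤ 1) (hpq : p < q) (hs : 0 ≤ s)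
    (hs2 : s ≤ 2 * (q - p)) : 1 - q + q * Real.exp (-s) ≤ Real.exp (-(p * s)) := by
  have h1 := one_sub_exp hs
  have hq0 : 0 < q := by linarith
  have h2 : 1 - q + q * Real.exp (-s) ≤ 1 - p * s := by
    have : q * (s - s ^ 2 / 2) ≤ q * (1 - Real.exp (-s)) := mul_le_mul_of_nonneg_left h1 hq0.le
    have h3 : p * s ≤ q * (s - s ^ 2 / 2) := by
      have : q * s / 2 ≤ q - p := by nlinarith
      nlinarith
    linarith
  have h4 := Real.add_one_le_exp (-(p * s))
  linarith

/-- Exponential tilting. -/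
lemma tilt {p q l : ℝ} (hp : 0 ≤ p) (hq : q ≤ 1) (hpq : p < q) (hl : 0 ≤ l)
    (hl2 : l ≤ 2 * (q - p)) : ∀ (n : ℕ) (g : (Fin n → Bool) → ℝ), Lip g → Monotone g →
    Ex q n (fun η => Real.exp (-(l * g η))) ≤ Real.exp (-(l * Ex p n g)) := by
  intro n
  induction n with
  | zero =>
    intro g _ _
    rw [Ex_zero, Ex_zero]
  | succ n ih =>
    intro g hg hmo
    have hmoc : ∀ b : Bool, Monotone (fun η : Fin n → Bool => g (Fin.cons b η)) := by
      intro b η η' h
      refine hmo fun j => ?_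
      induction j using Fin.cases with
      | zero => exact le_rfl
      | succ j => rw [Fin.cons_succ, Fin.cons_succ]; exact h j
    have hA := ih _ (hg.cons false) (hmoc false)
    have hB := ih _ (hg.cons true) (hmoc true)
    have hm := Ex_succ p n g
    obtain ⟨A, hAd⟩ : ∃ A, A = Ex p n (fun η => g (Fin.cons false η)) := ⟨_, rfl⟩
    obtain ⟨B, hBd⟩ : ∃ B, B = Ex p n (fun η => g (Fin.cons true η)) := ⟨_, rfl⟩
    have hp1 : p ≤ 1 := by linarith
    have hq0 : 0 ≤ q := by linarith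
    have hAB : |B - A| ≤ 1 := by
      rw [hAd, hBd]
      exact Ex_abs_le hp hp1 fun η => hg.head true false η
    have hAB2 : A ≤ B := by
      rw [hAd, hBd]
      refine Ex_mono hp hp1 fun η => hmo fun j => ?_
      induction j using Fin.cases with
      | zero => exact Bool.false_le _
      | succ j => rw [Fin.cons_succ, Fin.cons_succ]
    rw [← hAd, ← hBd] at hm
    rw [← hAd] at hA
    rw [← hBd] at hB
    rw [Ex_succ, hm]
    have hs : 0 ≤ l * (B - A) := mul_nonneg hl (by linarith)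
    have hs2 : l * (B - A) ≤ 2 * (q - p) := by
      have := (abs_le.1 hAB).2
      nlinarith
    have t := tilt_one hp hq hpq hs hs2
    calc (1 - q) * Ex q n (fun η => Real.exp (-(l * g (Fin.cons false η)))) +
          q * Ex q n (fun η => Real.exp (-(l * g (Fin.cons true η))))
        ≤ (1 - q) * Real.exp (-(l * A)) + q * Real.exp (-(l * B)) :=
          add_le_add (mul_le_mul_of_nonneg_left hA (by linarith))
            (mul_le_mul_of_nonneg_left hB hq0)
      _ = Real.exp (-(l * A)) * (1 - q + q * Real.exp (-(l * (B - A)))) := by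
          have : Real.exp (-(l * B)) = Real.exp (-(l * A)) * Real.exp (-(l * (B - A))) := by
            rw [← Real.exp_add]
            congr 1
            ring
          rw [this]
          ring
      _ ≤ Real.exp (-(l * A)) * Real.exp (-(p * (l * (B - A)))) :=
          mul_le_mul_of_nonneg_left t (Real.exp_pos _).le
      _ = _ := by
          rw [← Real.exp_add]
          congr 1
          ring

/-- The mean at a smaller parameter. -/
lemma mean_below {p q c : ℝ} (hp : 0 ≤ p) (hq : q ≤ 1) (hpq : p < q) {n : ℕ}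
    {g : (Fin n → Bool) → ℝ} (hg : Lip g) (hmo : Monotone g) (hc : 0 < c)
    (h : c ≤ Pr q n (fun η => g η ≤ 0)) :
    Ex p n g ≤ Real.log (1 / c) / (2 * (q - p)) := by
  classical
  have hd : 0 < 2 * (q - p) := by linarith
  have h1 := tilt hp hq hpq hd.le le_rfl n g hg hmo
  have h2 : c ≤ Real.exp (-(2 * (q - p) * Ex p n g)) := by
    refine h.trans (le_trans ?_ h1)
    unfold Pr
    refine Ex_mono (by linarith) hq fun η => ?_
    split_ifs with a
    · rw [← Real.exp_zero]
      refine Real.exp_le_exp.2 ?_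
      nlinarith
    · exact (Real.exp_pos _).le
  have h3 := Real.log_le_log hc h2
  rw [Real.log_exp] at h3
  rw [le_div_iff₀ hd, one_div, Real.log_inv]
  linarith

/-- The mean as a function of the parameter. -/
lemma mean_lip {p q : ℝ} (hp : 0 ≤ p) (hq : q ≤ 1) (hpq : p ≤ q) : ∀ (n : ℕ)
    (g : (Fin n → Bool) → ℝ), Lip g → |Ex q n g - Ex p n g| ≤ n * (q - p) := by
  intro n
  induction n with
  | zero =>
    intro g _
    rw [Ex_zero, Ex_zero]
    simp
  | succ n ih =>
    intro g hg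
    have hA := ih _ (hg.cons false)
    have hB := ih _ (hg.cons true)
    rw [Ex_succ, Ex_succ]
    obtain ⟨A, hAd⟩ : ∃ A, A = Ex p n (fun η => g (Fin.cons false η)) := ⟨_, rfl⟩
    obtain ⟨B, hBd⟩ : ∃ B, B = Ex p n (fun η => g (Fin.cons true η)) := ⟨_, rfl⟩
    obtain ⟨A', hAd'⟩ : ∃ A', A' = Ex q n (fun η => g (Fin.cons false η)) := ⟨_, rfl⟩
    obtain ⟨B', hBd'⟩ : ∃ B', B' = Ex q n (fun η => g (Fin.cons true η)) := ⟨_, rfl⟩
    have hAB : |B - A| ≤ 1 := by
      rw [hAd, hBd]
      exact Ex_abs_le hp (by linarith) fun η => hg.head true false η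
    rw [← hAd, ← hAd'] at hA
    rw [← hBd, ← hBd'] at hB
    rw [← hAd, ← hBd, ← hAd', ← hBd']
    rw [abs_le] at hA hB hAB ⊢
    push_cast
    constructor <;> nlinarith

end

end Pool.Agent.H246.FR
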