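import Pool.Agent.H246.FR.Fin

set_option autoImplicit false

/-!
The cost of destroying an increasing event by closing vertices: transfer from the infinite product
measure to finite products.
-/

namespace Pool.Agent.H246.FR

open MeasureTheory

noncomputable section

/-- The law of one variable. -/
def bern (p : ℝ) : Measure Bool :=
  ENNReal.ofReal p • Measure.dirac true + ENNReal.ofReal (1 - p) • Measure.dirac false

lemma bern_prob {p : ℝ} (h0 : 0 ≤ p) (h1 : p ≤ 1) : IsProbabilityMeasure (bern p) := by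
  constructor
  unfold bern
  rw [Measure.add_apply, Measure.smul_apply, Measure.smul_apply, measure_univ, measure_univ,
    smul_eq_mul, smul_eq_mul, mul_one, mul_one, ← ENNReal.ofReal_add h0 (by linarith)]
  have : p + (1 - p) = 1 := by ring
  rw [this, ENNReal.ofReal_one]

lemma bern_real {p : ℝ} (h0 : 0 ≤ p) (h1 : p ≤ 1) (b : Bool) : (bern p {b}).toReal = w p b := by
  unfold bern w
  rw [Measure.add_apply, Measure.smul_apply, Measure.smul_apply]
  cases b
  · simp [ENNReal.toReal_ofReal (show (0 : ℝ) ≤ 1 - p by linarith)]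
  · simp [ENNReal.toReal_ofReal h0]

variable {V : Type} [DecidableEq V]

/-- The percolation measure. -/
def Pm (V : Type) (p : ℝ) : Measure (V → Bool) := Measure.infinitePi (fun _ : V => bern p)

/-- The configuration with given values on `B`, closed outside. -/
def ext (B : Finset V) (η : Fin B.card → Bool) : V → Bool := fun x =>
  if h : x ∈ B then η (B.equivFin ⟨x, h⟩) else false

/-- Integrals of functions of the variables in `B`. -/
lemma int_eq {p : ℝ} (h0 : 0 ≤ p) (h1 : p ≤ 1) (B : Finset V) (f : (V → Bool) → ℝ)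
    (hf : ∀ ω ω' : V → Bool, (∀ x ∈ B, ω x = ω' x) → f ω = f ω') :
    ∫ ω, f ω ∂(Pm V p) = Ex p B.card (fun η => f (ext B η)) := by
  have hprob : IsProbabilityMeasure (bern p) := bern_prob h0 h1
  let g : (B → Bool) → ℝ := fun ξ => f (ext B (fun i => ξ (B.equivFin.symm i)))
  have e1 : ∀ ω : V → Bool, g (B.restrict ω) = f ω := by
    intro ω
    refine hf _ _ fun x hx => ?_
    unfold ext
    rw [dif_pos hx]
    show B.restrict ω (B.equivFin.symm (B.equivFin ⟨x, hx⟩)) = ω x
    rw [Equiv.symm_apply_apply]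
    rfl
  have e2 : ∫ ω, f ω ∂(Pm V p) = ∫ ω, g (B.restrict ω) ∂(Pm V p) :=
    integral_congr_ae (Filter.Eventually.of_forall fun ω => (e1 ω).symm)
  rw [e2]
  unfold Pm
  rw [integral_restrict_infinitePi (X := fun _ : V => Bool) (μ := fun _ : V => bern p)
    (AEStronglyMeasurable.of_discrete)]
  rw [integral_fintype Integrable.of_finite]
  unfold Ex
  rw [← (Equiv.arrowCongr B.equivFin (Equiv.refl Bool)).sum_comp]
  refine Finset.sum_congr rfl fun ξ _ => ?_
  rw [smul_eq_mul]
  congr 1
  · rw [Measure.real, Measure.pi_singleton, ENNReal.toReal_prod]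
    rw [← B.equivFin.prod_comp]
    refine Finset.prod_congr rfl fun i _ => ?_
    rw [bern_real h0 h1]
    congr 1
    simp [Equiv.arrowCongr]

/-- Probabilities of events which depend on the variables in `B`. -/
lemma real_eq {p : ℝ} (h0 : 0 ≤ p) (h1 : p ≤ 1) (B : Finset V) (A : (V → Bool) → Prop)
    (hA : ∀ ω ω' : V → Bool, (∀ x ∈ B, ω x = ω' x) → (A ω ↔ A ω')) :
    (Pm V p).real {ω | A ω} = Pr p B.card (fun η => A (ext B η)) := by
  classical
  have hm : MeasurableSet {ω | A ω} := by
    have e : {ω | A ω} = (B.restrict (π := fun _ : V => Bool)) ⁻¹'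
        {ξ | A (ext B (fun i => ξ (B.equivFin.symm i)))} := by
      ext ω
      show A ω ↔ A _
      refine hA _ _ fun x hx => ?_
      unfold ext
      rw [dif_pos hx]
      show ω x = B.restrict ω (B.equivFin.symm (B.equivFin ⟨x, hx⟩))
      rw [Equiv.symm_apply_apply]
      rfl
    rw [e]
    exact (Finset.measurable_restrict (X := fun _ : V => Bool) B) (Set.toFinite _).measurableSet
  rw [← integral_indicator_one hm]
  have e3 : ∀ ω, Set.indicator {ω | A ω} (1 : (V → Bool) → ℝ) ω = if A ω then 1 else 0 := by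
    intro ω
    rw [Set.indicator_apply]
    rfl
  simp only [e3]
  rw [int_eq h0 h1 B (fun ω => if A ω then (1 : ℝ) else 0)]
  · rfl
  · intro ω ω' h
    have := hA ω ω' h
    by_cases h' : A ω
    · rw [if_pos h', if_pos (this.1 h')]
    · rw [if_neg h', if_neg fun h'' => h' (this.2 h'')]

/-- Closing the vertices in `S`. -/
def close (S : Finset V) (ω : V → Bool) : V → Bool := fun x => if x ∈ S then false else ω x

lemma close_le {S T : Finset V} {ω ω' : V → Bool} (h : S ⊆ T)
    (hω : ∀ x, x ∉ T → ω x ≤ ω' x) : close T ω ≤ close S ω' := by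
  intro x
  unfold close
  by_cases hT : x ∈ T
  · rw [if_pos hT]; exact Bool.false_le _
  · rw [if_neg hT, if_neg fun hS => hT (h hS)]
    exact hω x hT

/-- The smallest number of vertices which have to be closed in order that the event `A` does not
occur. -/
def cost (A : Set (V → Bool)) (ω : V → Bool) : ℕ :=
  sInf {n | ∃ S : Finset V, S.card = n ∧ close S ω ∉ A}

/-- An increasing event which depends on the variables in `B` and does not contain the closed
configuration. -/
structure Good (B : Finset V) (A : Set (V → Bool)) : Prop where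
  dep : ∀ ω ω' : V → Bool, (∀ x ∈ B, ω x = ω' x) → (ω ∈ A ↔ ω' ∈ A)
  inc : ∀ ω ω' : V → Bool, ω ≤ ω' → ω ∈ A → ω' ∈ A
  emp : (fun _ => false) ∉ A

variable {B : Finset V} {A : Set (V → Bool)}

lemma Good.nonempty (h : Good B A) (ω : V → Bool) :
    {n | ∃ S : Finset V, S.card = n ∧ close S ω ∉ A}.Nonempty := by
  refine ⟨B.card, B, rfl, ?_⟩
  rw [h.dep _ (fun _ => false) (fun x hx => by unfold close; rw [if_pos hx])]
  exact h.emp

lemma Good.att (h : Good B A) (ω : V → Bool) : ∃ S : Finset V, S.card = cost A ω ∧ close S ω ∉ A :=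
  Nat.sInf_mem (h.nonempty ω)

lemma cost_le {S : Finset V} {ω : V → Bool} (h : close S ω ∉ A) : cost A ω ≤ S.card :=
  Nat.sInf_le ⟨S, rfl, h⟩

lemma Good.cost_dep (h : Good B A) (ω ω' : V → Bool) (hω : ∀ x ∈ B, ω x = ω' x) :
    cost A ω = cost A ω' := by
  have key : ∀ ω ω' : V → Bool, (∀ x ∈ B, ω x = ω' x) → cost A ω' ≤ cost A ω := by
    intro ω ω' hω
    obtain ⟨S, h1, h2⟩ := h.att ω
    rw [← h1]
    refine cost_le ?_
    rwa [← h.dep (close S ω) (close S ω') (fun x hx => by unfold close; rw [hω x hx])]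
  exact le_antisymm (key ω' ω fun x hx => (hω x hx).symm) (key ω ω' hω)

lemma Good.cost_mono (h : Good B A) {ω ω' : V → Bool} (hω : ω ≤ ω') : cost A ω ≤ cost A ω' := by
  obtain ⟨S, h1, h2⟩ := h.att ω'
  rw [← h1]
  exact cost_le fun h3 => h2 (h.inc _ _ (close_le (Finset.Subset.refl S) fun x _ => hω x) h3)

lemma Good.cost_lip (h : Good B A) {ω ω' : V → Bool} {x : V} (hω : ∀ y, y ≠ x → ω y = ω' y) :
    cost A ω ≤ cost A ω' + 1 := by
  obtain ⟨S, h1, h2⟩ := h.att ω'
  rw [← h1]
  refine le_trans (cost_le (S := insert x S) fun h3 => h2 (h.inc _ _ ?_ h3))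
    (Finset.card_insert_le x S)
  refine close_le (Finset.subset_insert x S) fun y hy => ?_
  rw [hω y fun e => hy (by rw [e]; exact Finset.mem_insert_self x S)]

lemma Good.cost_zero (h : Good B A) {ω : V → Bool} : cost A ω = 0 ↔ ω ∉ A := by
  have e : close ∅ ω = ω := by
    funext x
    unfold close
    rw [if_neg (Finset.notMem_empty x)]
  constructor
  · intro h0
    obtain ⟨S, h1, h2⟩ := h.att ω
    rw [h0, Finset.card_eq_zero] at h1
    rw [h1, e] at h2
    exact h2
  · intro h0
    have h1 : cost A ω ≤ (∅ : Finset V).card := cost_le (by rw [e]; exact h0)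
    rw [Finset.card_empty] at h1
    omega

/-- The cost as a function of finitely many variables. -/
def cg (B : Finset V) (A : Set (V → Bool)) (η : Fin B.card → Bool) : ℝ := (cost A (ext B η) : ℝ)

lemma Good.lip (h : Good B A) : Lip (cg B A) := by
  intro η η' i hi
  have key : ∀ η η' : Fin B.card → Bool, (∀ j, j ≠ i → η j = η' j) →
      (cost A (ext B η) : ℝ) ≤ cost A (ext B η') + 1 := by
    intro η η' hi
    have := h.cost_lip (ω := ext B η) (ω' := ext B η') (x := (B.equivFin.symm i : V)) (by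
      intro y hy
      unfold ext
      by_cases hB : y ∈ B
      · rw [dif_pos hB, dif_pos hB]
        refine hi _ fun e => hy ?_
        rw [← e, Equiv.symm_apply_apply]
      · rw [dif_neg hB, dif_neg hB])
    exact_mod_cast this
  unfold cg
  rw [abs_le]
  constructor
  · linarith [key η' η fun j hj => (hi j hj).symm]
  · linarith [key η η' hi]

lemma Good.mono (h : Good B A) : Monotone (cg B A) := by
  intro η η' hη
  unfold cg
  have : cost A (ext B η) ≤ cost A (ext B η') := by
    refine h.cost_mono fun x => ?_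
    unfold ext
    by_cases hB : x ∈ B
    · rw [dif_pos hB, dif_pos hB]
      exact hη _
    · rw [dif_neg hB, dif_neg hB]
  exact_mod_cast this

lemma Good.zero (h : Good B A) {p : ℝ} (h0 : 0 ≤ p) (h1 : p ≤ 1) :
    (Pm V p).real Aᶜ = Pr p B.card (fun η => cg B A η ≤ 0) := by
  have e : Aᶜ = {ω | (cost A ω : ℝ) ≤ 0} := by
    ext ω
    rw [Set.mem_compl_iff, ← h.cost_zero, Set.mem_ofPred_eq]
    constructor
    · intro h0
      rw [h0]
      norm_num
    · intro h0
      have : (cost A ω : ℝ) = 0 := le_antisymm h0 (Nat.cast_nonneg _)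
      exact_mod_cast this
  rw [e]
  exact real_eq h0 h1 B (fun ω => (cost A ω : ℝ) ≤ 0) fun ω ω' hω => by
    rw [h.cost_dep ω ω' hω]

lemma cg_nonneg (η : Fin B.card → Bool) : 0 ≤ cg B A η := Nat.cast_nonneg _

/-- Tails of the cost. -/
theorem Good.tail (h : Good B A) {q c t : ℝ} (h0 : 0 ≤ q) (h1 : q ≤ 1) (hc : 0 < c)
    (hA : c ≤ (Pm V q).real Aᶜ) (ht : 0 ≤ t) (hB : 0 < B.card) :
    (Pm V q).real {ω | √(2 * B.card) * (√(Real.log (1 / c)) + t) ≤ cost A ω} ≤
      Real.exp (-t ^ 2) := by
  rw [h.zero h0 h1] at hA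
  have h2 := FR.tail h0 h1 h.lip cg_nonneg hc hA ht hB
  have h3 := real_eq (V := V) h0 h1 B
    (fun ω => √(2 * (B.card : ℝ)) * (√(Real.log (1 / c)) + t) ≤ cost A ω) fun ω ω' hω => by
      rw [h.cost_dep ω ω' hω]
  rw [h3]
  exact h2

lemma Good.mean_eq (h : Good B A) {p : ℝ} (h0 : 0 ≤ p) (h1 : p ≤ 1) :
    ∫ ω, (cost A ω : ℝ) ∂(Pm V p) = Ex p B.card (cg B A) :=
  int_eq h0 h1 B (fun ω => (cost A ω : ℝ)) fun ω ω' hω => by
    rw [h.cost_dep ω ω' hω]

/-- The mean cost below the parameter `q`. -/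
theorem Good.below (h : Good B A) {p q c : ℝ} (h0 : 0 ≤ p) (h1 : q ≤ 1) (hpq : p < q) (hc : 0 < c)
    (hA : c ≤ (Pm V q).real Aᶜ) :
    ∫ ω, (cost A ω : ℝ) ∂(Pm V p) ≤ Real.log (1 / c) / (2 * (q - p)) := by
  rw [h.zero (by linarith) h1] at hA
  rw [h.mean_eq h0 (by linarith)]
  exact mean_below h0 h1 hpq h.lip h.mono hc hA

/-- The mean cost above the parameter `q`. -/
theorem Good.above (h : Good B A) {p q c : ℝ} (h0 : 0 ≤ q) (h1 : p ≤ 1) (hpq : q ≤ p) (hc : 0 < c)
    (hA : c ≤ (Pm V q).real Aᶜ) :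
    ∫ ω, (cost A ω : ℝ) ∂(Pm V p) ≤ √(2 * B.card) * √(Real.log (1 / c)) + B.card * (p - q) := by
  rw [h.zero h0 (by linarith)] at hA
  rw [h.mean_eq (by linarith) h1]
  have h2 := mean_le h0 (by linarith) h.lip cg_nonneg hc hA
  have h3 := (abs_le.1 (mean_lip h0 h1 hpq B.card (cg B A) h.lip)).2
  linarith

end

end Pool.Agent.H246.FR
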